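import Pool.Agent.H73.GWQ.Stmts

/-!
Row GSQ of board gwq (MP_213ba5_lc, quasi-trees): a good step.
-/

set_option autoImplicit false

open Classical

namespace GWQ

section

variable {G V : Type*} [Group G] (D : QM G V)

theorem GSQ_mul (g k : G) : D.d g (g * k) = D.nm k := by
  have h := D.inv g 1 k
  rw [mul_one] at h
  exact h

theorem GSQ_mul' (g k : G) : D.d (g * k) g = D.nm k := by
  rw [D.comm]
  exact GSQ_mul D g k

theorem GSQ_nm_mul (g k : G) : D.nm (g * k) ≤ D.nm g + D.nm k := by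
  have h := D.tri 1 g (g * k)
  rw [GSQ_mul D g k] at h
  exact h

end

variable {ι G V : Type*} [Fintype ι] [Group G]

theorem GSQ (C : QCode ι G V) (h1 : H4QStmt C.toQM) : GSQStmt C := by
  intro g u s hL hR
  unfold LB at hL
  unfold RB at hR
  have hK := C.hδ
  have h5 : 5 * C.nm (C.c s) ≤ C.nm ((C.c s) ^ 5) + C.K := C.p5 s
  have e2 : C.nm (C.c s ^ 2) ≤ 2 * C.nm (C.c s) := by
    have h := GSQ_nm_mul C.toQM (C.c s) (C.c s)
    rw [pow_two]
    omega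
  have e3 : C.nm (C.c s ^ 3) ≤ 3 * C.nm (C.c s) := by
    have h := GSQ_nm_mul C.toQM (C.c s ^ 2) (C.c s)
    rw [pow_succ]
    omega
  have e4 : C.nm (C.c s ^ 4) ≤ 4 * C.nm (C.c s) := by
    have h := GSQ_nm_mul C.toQM (C.c s ^ 3) (C.c s)
    rw [pow_succ]
    omega
  -- first use
  have a1 := h1 1 (g * C.c s) g (g * C.c s ^ 5)
  have a2 : C.d g (g * C.c s ^ 5) = C.nm (C.c s ^ 5) := GSQ_mul C.toQM _ _
  have a3 : C.d (g * C.c s) (g * C.c s ^ 5) = C.nm (C.c s ^ 4) := by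
    have h := GSQ_mul C.toQM (g * C.c s) (C.c s ^ 4)
    have e : g * C.c s * C.c s ^ 4 = g * C.c s ^ 5 := by
      rw [mul_assoc, ← pow_succ']
    rw [e] at h
    exact h
  have a4 : C.d (g * C.c s) g = C.nm (C.c s) := GSQ_mul' C.toQM _ _
  have a5 : C.d 1 (g * C.c s) = C.nm (g * C.c s) := rfl
  have a6 : C.d 1 g = C.nm g := rfl
  have a7 : C.d 1 (g * C.c s ^ 5) = C.nm (g * C.c s ^ 5) := rfl
  rw [a2, a3, a4, a5, a6, a7] at a1
  have b0 : C.nm (g * C.c s) + 4 * C.nm (C.c s) ≤ C.nm (g * C.c s ^ 5) + 2 * C.K := by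
    rcases le_total (C.nm g + C.nm (C.c s ^ 4)) (C.nm (g * C.c s ^ 5) + C.nm (C.c s)) with h | h
    · rw [max_eq_right h] at a1
      omega
    · rw [max_eq_left h] at a1
      omega
  -- second use
  have b1 := h1 (g * C.c s ^ 5 * u) (g * C.c s ^ 4) (g * C.c s ^ 5) 1
  have b2 : C.d (g * C.c s ^ 5 * u) (g * C.c s ^ 4) = C.nm (C.c s * u) := by
    have h := GSQ_mul' C.toQM (g * C.c s ^ 4) (C.c s * u)
    have e : g * C.c s ^ 4 * (C.c s * u) = g * C.c s ^ 5 * u := by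
      rw [← mul_assoc, mul_assoc g, ← pow_succ]
    rw [e] at h
    exact h
  have b3 : C.d (g * C.c s ^ 5) 1 = C.nm (g * C.c s ^ 5) := C.comm _ _
  have b4 : C.d (g * C.c s ^ 5 * u) (g * C.c s ^ 5) = C.nm u := GSQ_mul' C.toQM _ _
  have b5 : C.d (g * C.c s ^ 4) 1 = C.nm (g * C.c s ^ 4) := C.comm _ _
  have b6 : C.d (g * C.c s ^ 5 * u) 1 = C.nm (g * C.c s ^ 5 * u) := C.comm _ _
  have b7 : C.d (g * C.c s ^ 4) (g * C.c s ^ 5) = C.nm (C.c s) := by
    have h := GSQ_mul C.toQM (g * C.c s ^ 4) (C.c s)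
    have e : g * C.c s ^ 4 * C.c s = g * C.c s ^ 5 := by
      rw [mul_assoc, ← pow_succ]
    rw [e] at h
    exact h
  have b8 : C.nm (g * C.c s ^ 4) ≤ C.nm (g * C.c s) + 3 * C.nm (C.c s) := by
    have h := GSQ_nm_mul C.toQM (g * C.c s) (C.c s ^ 3)
    have e : g * C.c s * C.c s ^ 3 = g * C.c s ^ 4 := by
      rw [mul_assoc, ← pow_succ']
    rw [e] at h
    omega
  rw [b2, b3, b4, b5, b6, b7] at b1
  rcases le_total (C.nm u + C.nm (g * C.c s ^ 4))
      (C.nm (g * C.c s ^ 5 * u) + C.nm (C.c s)) with h | h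
  · rw [max_eq_right h] at b1
    omega
  · rw [max_eq_left h] at b1
    omega

end GWQ
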